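import Mathlib

set_option autoImplicit false

/-! The analytic part of the proof that no version of the density of the record-indicator harmonic
series is continuous on `(1, ∞)`. -/

namespace Pool.Agent.Q216.RH

open MeasureTheory Set Filter Topology
open scoped ENNReal

/-- If `ν` has density `φ` on `(0, ∞)`, `φ` is continuous at `x > 0`, and the mass of small
intervals to the right of `x` is at most `C` times their length, then `φ x ≤ C`. -/
theorem le_of_small {ν : Measure ℝ} {φ : ℝ → ℝ} {x C : ℝ} (hx : 0 < x) (hC : 0 ≤ C)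
    (hφ : ContinuousAt φ x)
    (hd : ∀ a b, 0 ≤ a → a ≤ b → ν (Ioo a b) = ∫⁻ x in Ioo a b, ENNReal.ofReal (φ x))
    (h : ∀ᶠ δ in 𝓝[>] (0 : ℝ), ν (Ioo x (x + δ)) ≤ ENNReal.ofReal (C * δ)) : φ x ≤ C := by
  by_contra hlt
  push Not at hlt
  obtain ⟨C', hC1, hC2⟩ := exists_between hlt
  have hev : ∀ᶠ y in 𝓝 x, C' < φ y := hφ.eventually (lt_mem_nhds hC2)
  obtain ⟨ε, hε, hball⟩ := Metric.eventually_nhds_iff.1 hev
  have h2 : ∀ᶠ δ in 𝓝[>] (0 : ℝ), δ < ε ∧ 0 < δ := by
    filter_upwards [Ioo_mem_nhdsGT hε] with δ hδ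
    exact ⟨hδ.2, hδ.1⟩
  obtain ⟨δ, hδ, hδε, hδ0⟩ := (h.and h2).exists
  rw [hd x (x + δ) hx.le (by linarith)] at hδ
  have h3 : ENNReal.ofReal (C' * δ) ≤ ∫⁻ y in Ioo x (x + δ), ENNReal.ofReal (φ y) := by
    calc ENNReal.ofReal (C' * δ) = ENNReal.ofReal C' * volume (Ioo x (x + δ)) := by
          rw [Real.volume_Ioo, ← ENNReal.ofReal_mul (by linarith)]
          congr 1; ring
      _ = ∫⁻ _y in Ioo x (x + δ), ENNReal.ofReal C' := by rw [setLIntegral_const]
      _ ≤ _ := by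
          refine setLIntegral_mono' measurableSet_Ioo fun y hy => ENNReal.ofReal_le_ofReal ?_
          refine (hball ?_).le
          rw [Real.dist_eq, abs_lt]
          constructor <;> linarith [hy.1, hy.2]
  have h4 := (ENNReal.ofReal_le_ofReal_iff (by positivity)).1 (h3.trans hδ)
  nlinarith

/-- An upper bound of the density gives an upper bound of the mass of intervals. -/
theorem mass_le {ν : Measure ℝ} {φ : ℝ → ℝ} {C K : ℝ} (hC : 0 ≤ C)
    (hd : ∀ a b, 0 ≤ a → a ≤ b → ν (Ioo a b) = ∫⁻ x in Ioo a b, ENNReal.ofReal (φ x))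
    (hν : ν (Iic 0) = 0) (hK : ∀ x, 0 < x → x < K → φ x ≤ C) {a b : ℝ} (hab : a ≤ b)
    (hb : b ≤ K) : ν (Ioo a b) ≤ ENNReal.ofReal (C * (b - a)) := by
  have h0 : Ioo a b ⊆ Iic 0 ∪ Ioo (max a 0) b := by
    intro x hx
    rcases le_or_gt x 0 with h | h
    · exact Or.inl h
    · exact Or.inr ⟨max_lt hx.1 h, hx.2⟩
  have h1 : ν (Ioo a b) ≤ ν (Ioo (max a 0) b) := by
    refine (measure_mono h0).trans ((measure_union_le _ _).trans ?_)
    rw [hν, zero_add]
  refine h1.trans ?_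
  rcases le_or_gt b (max a 0) with h | h
  · rw [Ioo_eq_empty (not_lt.2 h)]
    simp
  rw [hd _ _ (le_max_right _ _) h.le]
  calc ∫⁻ x in Ioo (max a 0) b, ENNReal.ofReal (φ x)
      ≤ ∫⁻ _x in Ioo (max a 0) b, ENNReal.ofReal C := by
        refine setLIntegral_mono' measurableSet_Ioo fun x hx => ENNReal.ofReal_le_ofReal ?_
        exact hK x (lt_of_le_of_lt (le_max_right _ _) hx.1) (hx.2.trans_le hb)
    _ = ENNReal.ofReal (C * (b - max a 0)) := by
        rw [setLIntegral_const, Real.volume_Ioo, ← ENNReal.ofReal_mul hC]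
    _ ≤ _ := ENNReal.ofReal_le_ofReal (by
        have := le_max_left a 0
        nlinarith)

theorem weights_le : ∑' n : ℕ, ENNReal.ofReal (1 / (((n : ℝ) + 1) * (n + 2))) ≤ 1 := by
  rw [ENNReal.tsum_eq_iSup_nat]
  refine iSup_le fun n => ?_
  rw [← ENNReal.ofReal_sum_of_nonneg (fun i _ => by positivity)]
  have h : ∀ n : ℕ, ∑ i ∈ Finset.range n, 1 / (((i : ℝ) + 1) * (i + 2)) = 1 - 1 / ((n : ℝ) + 1) := by
    intro n
    induction n with
    | zero => simp
    | succ n ih =>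
      rw [Finset.sum_range_succ, ih]
      push_cast
      field_simp
      ring
  rw [h, ← ENNReal.ofReal_one]
  refine ENNReal.ofReal_le_ofReal ?_
  have : (0 : ℝ) ≤ 1 / ((n : ℝ) + 1) := by positivity
  linarith

/-- The masses of two short intervals on the two sides of a point of continuity. -/
theorem mass_near {ν : Measure ℝ} {φ : ℝ → ℝ} {x : ℝ} (hx : 0 < x) (hφ0 : ∀ x, 0 ≤ φ x)
    (hφ : ContinuousAt φ x)
    (hd : ∀ a b, 0 ≤ a → a ≤ b → ν (Ioo a b) = ∫⁻ x in Ioo a b, ENNReal.ofReal (φ x))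
    {η : ℝ} (hη : 0 < η) :
    ∀ᶠ δ in 𝓝[>] (0 : ℝ), (φ x - η) * δ ≤ (ν (Ioo x (x + δ))).toReal ∧
      (ν (Ioo x (x + δ))).toReal ≤ (φ x + η) * δ ∧
      (φ x - η) * δ ≤ (ν (Ioo (x - δ) x)).toReal ∧
      (ν (Ioo (x - δ) x)).toReal ≤ (φ x + η) * δ := by
  obtain ⟨ε, hε, hball⟩ := Metric.continuousAt_iff.1 hφ η hη
  have hmin : 0 < min ε x := lt_min hε hx
  filter_upwards [Ioo_mem_nhdsGT hmin] with δ hδ
  have hδ0 := hδ.1
  have hδε : δ < ε := hδ.2.trans_le (min_le_left _ _)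
  have hδx : δ < x := hδ.2.trans_le (min_le_right _ _)
  -- a general statement for intervals of length `δ` in the ball
  have key : ∀ a b : ℝ, 0 ≤ a → b - a = δ → x - δ ≤ a → b ≤ x + δ →
      (φ x - η) * δ ≤ (ν (Ioo a b)).toReal ∧ (ν (Ioo a b)).toReal ≤ (φ x + η) * δ := by
    intro a b ha hab h1 h2
    have hv : volume (Ioo a b) = ENNReal.ofReal δ := by rw [Real.volume_Ioo, hab]
    have hin : ∀ y ∈ Ioo a b, |φ y - φ x| < η := by
      intro y hy
      have := hball (x := y) (by rw [Real.dist_eq, abs_lt]; constructor <;> linarith [hy.1, hy.2])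
      rwa [Real.dist_eq] at this
    have hup : ν (Ioo a b) ≤ ENNReal.ofReal ((φ x + η) * δ) := by
      rw [hd a b ha (by linarith)]
      calc ∫⁻ y in Ioo a b, ENNReal.ofReal (φ y)
          ≤ ∫⁻ _y in Ioo a b, ENNReal.ofReal (φ x + η) := by
            refine setLIntegral_mono' measurableSet_Ioo fun y hy => ENNReal.ofReal_le_ofReal ?_
            have := (abs_lt.1 (hin y hy)).2
            linarith
        _ = _ := by
            rw [setLIntegral_const, hv, ← ENNReal.ofReal_mul (by linarith [hφ0 x])]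
    have hlo : ENNReal.ofReal ((φ x - η) * δ) ≤ ν (Ioo a b) := by
      rw [hd a b ha (by linarith)]
      calc ENNReal.ofReal ((φ x - η) * δ)
          = ∫⁻ _y in Ioo a b, ENNReal.ofReal (φ x - η) := by
            rw [setLIntegral_const, hv, ENNReal.ofReal_mul' hδ0.le]
        _ ≤ _ := by
            refine setLIntegral_mono' measurableSet_Ioo fun y hy => ENNReal.ofReal_le_ofReal ?_
            have := (abs_lt.1 (hin y hy)).1
            linarith
    have hfin : ν (Ioo a b) ≠ ⊤ := ne_top_of_le_ne_top ENNReal.ofReal_ne_top hup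
    constructor
    · exact (ENNReal.ofReal_le_iff_le_toReal hfin).1 hlo
    · exact ENNReal.toReal_le_of_le_ofReal
        (mul_nonneg (by linarith [hφ0 x]) hδ0.le) hup
  obtain ⟨h1, h2⟩ := key x (x + δ) hx.le (by ring) (by linarith) le_rfl
  obtain ⟨h3, h4⟩ := key (x - δ) x (by linarith) (by ring) le_rfl (by linarith)
  exact ⟨h1, h2, h3, h4⟩

theorem analytic (ν ρ : Measure ℝ) [IsFiniteMeasure ν] [IsFiniteMeasure ρ] (φ : ℝ → ℝ)
    (hφ0 : ∀ x, 0 ≤ φ x) (hφ : ∀ x, 0 < x → ContinuousAt φ x)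
    (hd : ∀ a b, 0 ≤ a → a ≤ b → ν (Ioo a b) = ∫⁻ x in Ioo a b, ENNReal.ofReal (φ x))
    (hν : ν (Iic 0) = 0) (hρ : ρ (Iio 0) = 0)
    (h1 : ∀ a b : ℝ, (ν (Ioo a b)).toReal =
      ((ρ (Ioo a b)).toReal + (ρ (Ioo (a - 1 / 2) (b - 1 / 2))).toReal) / 2)
    (h4 : ∀ N : ℕ, 1 ≤ N → 1 / (2 * (N : ℝ)) ≤ (ν (Ioo 0 (2 / (N : ℝ)))).toReal)
    (h3 : ∀ a b : ℝ, 0 < a → ENNReal.ofReal a * ν (Ioo a b) ≤
      ∑' n : ℕ, ENNReal.ofReal (1 / (((n : ℝ) + 1) * (n + 2))) *
        ν (Ioo (a - 1 / ((n : ℝ) + 2)) (b - 1 / ((n : ℝ) + 2)))) :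
    False := by
  classical
  -- `ρ` does not charge negative intervals
  have hρneg : ∀ a b : ℝ, b ≤ 0 → (ρ (Ioo a b)).toReal = 0 := by
    intro a b hb
    have : ρ (Ioo a b) = 0 := measure_mono_null (fun x hx => lt_of_lt_of_le hx.2 hb) hρ
    rw [this]; rfl
  -- local bounds
  have hloc : ∀ K : ℝ, ∃ C : ℝ, 0 ≤ C ∧ ∀ x, 0 < x → x < K → φ x ≤ C := by
    intro K
    have hcont : ContinuousOn φ (Icc (1 / 2) (max K 1)) := fun x hx =>
      (hφ x (by linarith [hx.1])).continuousWithinAt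
    obtain ⟨C, hC⟩ := isCompact_Icc.bddAbove_image hcont
    have hC' : ∀ x, 1 / 2 ≤ x → x ≤ max K 1 → φ x ≤ C := fun x h h' =>
      hC (mem_image_of_mem _ ⟨h, h'⟩)
    have hC0 : 0 ≤ C := (hφ0 1).trans (hC' 1 (by norm_num) (le_max_right _ _))
    refine ⟨C, hC0, fun x hx hxK => ?_⟩
    rcases le_or_gt (1 / 2) x with h | h
    · exact hC' x h (hxK.le.trans (le_max_left _ _))
    · refine le_of_small hx hC0 (hφ x hx) hd ?_
      have hpos : 0 < 1 / 2 - x := by linarith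
      filter_upwards [Ioo_mem_nhdsGT hpos] with δ hδ
      have e1 := h1 x (x + δ)
      rw [hρneg (x - 1 / 2) (x + δ - 1 / 2) (by linarith [hδ.2])] at e1
      have e2 := h1 (x + 1 / 2) (x + 1 / 2 + δ)
      have e3 : x + 1 / 2 - 1 / 2 = x := by ring
      have e4 : x + 1 / 2 + δ - 1 / 2 = x + δ := by ring
      rw [e3, e4] at e2
      have e5 : (ν (Ioo x (x + δ))).toReal ≤ (ν (Ioo (x + 1 / 2) (x + 1 / 2 + δ))).toReal := by
        rw [e1, e2]
        have := ENNReal.toReal_nonneg (a := ρ (Ioo (x + 1 / 2) (x + 1 / 2 + δ)))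
        linarith
      have e6 : ν (Ioo x (x + δ)) ≤ ν (Ioo (x + 1 / 2) (x + 1 / 2 + δ)) :=
        (ENNReal.toReal_le_toReal (measure_ne_top _ _) (measure_ne_top _ _)).1 e5
      refine e6.trans ?_
      rw [hd _ _ (by linarith) (by linarith [hδ.1])]
      calc ∫⁻ y in Ioo (x + 1 / 2) (x + 1 / 2 + δ), ENNReal.ofReal (φ y)
          ≤ ∫⁻ _y in Ioo (x + 1 / 2) (x + 1 / 2 + δ), ENNReal.ofReal C := by
            refine setLIntegral_mono' measurableSet_Ioo fun y hy => ENNReal.ofReal_le_ofReal ?_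
            refine hC' y (by linarith [hy.1]) (le_trans ?_ (le_max_right _ _))
            linarith [hy.2, hδ.2]
        _ = ENNReal.ofReal (C * δ) := by
            rw [setLIntegral_const, Real.volume_Ioo, ← ENNReal.ofReal_mul hC0]
            congr 1; ring
  -- the bound `φ x ≤ C / x`
  have hdiv : ∀ K C : ℝ, 0 ≤ C → (∀ x, 0 < x → x < K → φ x ≤ C) →
      ∀ x, 0 < x → x < K → φ x ≤ C / x := by
    intro K C hC hb x hx hxK
    refine le_of_small hx (by positivity) (hφ x hx) hd ?_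
    have hpos : 0 < K - x := by linarith
    filter_upwards [Ioo_mem_nhdsGT hpos] with δ hδ
    have e1 := h3 x (x + δ) hx
    have e2 : ∑' n : ℕ, ENNReal.ofReal (1 / (((n : ℝ) + 1) * (n + 2))) *
        ν (Ioo (x - 1 / ((n : ℝ) + 2)) (x + δ - 1 / ((n : ℝ) + 2))) ≤ ENNReal.ofReal (C * δ) := by
      calc ∑' n : ℕ, ENNReal.ofReal (1 / (((n : ℝ) + 1) * (n + 2))) *
            ν (Ioo (x - 1 / ((n : ℝ) + 2)) (x + δ - 1 / ((n : ℝ) + 2)))
          ≤ ∑' n : ℕ, ENNReal.ofReal (1 / (((n : ℝ) + 1) * (n + 2))) * ENNReal.ofReal (C * δ) := by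
            refine ENNReal.tsum_le_tsum fun n => ?_
            gcongr
            have hn : (0 : ℝ) ≤ 1 / ((n : ℝ) + 2) := by positivity
            refine (mass_le hC hd hν hb (by linarith [hδ.1]) (by linarith [hδ.2])).trans ?_
            refine ENNReal.ofReal_le_ofReal (le_of_eq ?_)
            ring
        _ = (∑' n : ℕ, ENNReal.ofReal (1 / (((n : ℝ) + 1) * (n + 2)))) * ENNReal.ofReal (C * δ) :=
            ENNReal.tsum_mul_right
        _ ≤ 1 * ENNReal.ofReal (C * δ) := by gcongr; exact weights_le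
        _ = _ := one_mul _
    have e3 : ENNReal.ofReal x * ν (Ioo x (x + δ)) ≤ ENNReal.ofReal x * ENNReal.ofReal (C / x * δ) := by
      refine (e1.trans e2).trans (le_of_eq ?_)
      rw [← ENNReal.ofReal_mul hx.le]
      congr 1
      field_simp
    exact (ENNReal.mul_le_mul_iff_right (by simpa using hx) ENNReal.ofReal_ne_top).1 e3
  -- a global bound
  obtain ⟨M, hM0, hM⟩ := hloc 2
  have hglob : ∀ K : ℝ, ∀ x, 0 < x → x < K → φ x ≤ M := by
    intro K
    obtain ⟨C, hC0, hC⟩ := hloc K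
    -- improve `C` by halving
    have himp : ∀ j : ℕ, ∀ x, 0 < x → x < K → φ x ≤ max M (C / 2 ^ j) := by
      intro j
      induction j with
      | zero => intro x hx hxK; simpa using Or.inr (hC x hx hxK)
      | succ j ih =>
        intro x hx hxK
        rcases lt_or_ge x 2 with h | h
        · exact (hM x hx h).trans (le_max_left _ _)
        · have hm0 : 0 ≤ max M (C / 2 ^ j) := hM0.trans (le_max_left _ _)
          have := hdiv K _ hm0 ih x hx hxK
          refine this.trans ?_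
          have h2 : max M (C / 2 ^ j) / x ≤ max M (C / 2 ^ j) / 2 :=
            div_le_div_of_nonneg_left hm0 (by norm_num) h
          refine h2.trans ?_
          rcases le_total M (C / 2 ^ j) with h3 | h3
          · rw [max_eq_right h3]
            refine le_trans (le_of_eq ?_) (le_max_right _ _)
            rw [pow_succ]; field_simp
          · rw [max_eq_left h3]
            refine le_trans ?_ (le_max_left _ _)
            linarith
    intro x hx hxK
    by_contra hlt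
    push Not at hlt
    have htend : Tendsto (fun j : ℕ => C / 2 ^ j) atTop (𝓝 0) := by
      have := tendsto_pow_atTop_nhds_zero_of_lt_one (r := (1 / 2 : ℝ)) (by norm_num) (by norm_num)
      have h2 := this.const_mul C
      rw [mul_zero] at h2
      refine h2.congr fun j => ?_
      rw [div_pow, one_pow]; ring
    have hpos : 0 < φ x := lt_of_le_of_lt hM0 hlt
    obtain ⟨j, hj⟩ := (htend.eventually (gt_mem_nhds hpos)).exists
    have := himp j x hx hxK
    exact absurd this (not_le.2 (max_lt hlt hj))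
  have hfin : ∀ x, 0 < x → φ x ≤ M / x := fun x hx =>
    hdiv (x + 1) M hM0 (hglob (x + 1)) x hx (by linarith)
  -- the jumps
  have hjump : ∀ k : ℕ, ∀ η : ℝ, 0 < η → ∀ᶠ δ in 𝓝[>] (0 : ℝ),
      |(ρ (Ioo ((k : ℝ) / 2) ((k : ℝ) / 2 + δ))).toReal -
        (ρ (Ioo ((k : ℝ) / 2 - δ) ((k : ℝ) / 2))).toReal -
        (-1) ^ k * (2 * (ν (Ioo 0 δ)).toReal)| ≤ η * δ := by
    intro k
    induction k with
    | zero =>
      intro η hη
      filter_upwards [Ioo_mem_nhdsGT (show (0 : ℝ) < 1 / 2 by norm_num)] with δ hδ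
      have e1 := h1 0 δ
      rw [hρneg (0 - 1 / 2) (δ - 1 / 2) (by linarith [hδ.2])] at e1
      have e2 := hρneg (0 - δ) 0 le_rfl
      simp only [Nat.cast_zero, zero_div, zero_add, pow_zero, one_mul]
      rw [e2, e1]
      have : (ρ (Ioo 0 δ)).toReal - 0 - 2 * (((ρ (Ioo 0 δ)).toReal + 0) / 2) = 0 := by ring
      rw [this, abs_zero]
      exact mul_nonneg hη.le hδ.1.le
    | succ k ih =>
      intro η hη
      have hk : (0 : ℝ) < ((k + 1 : ℕ) : ℝ) / 2 := by positivity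
      filter_upwards [ih (η / 2) (by linarith), mass_near hk hφ0 (hφ _ hk) hd
        (show 0 < η / 8 by linarith), self_mem_nhdsWithin] with δ hδ1 hδ2 hδ0
      have hδ0' : (0 : ℝ) < δ := hδ0
      have e1 := h1 (((k + 1 : ℕ) : ℝ) / 2) (((k + 1 : ℕ) : ℝ) / 2 + δ)
      have e2 := h1 (((k + 1 : ℕ) : ℝ) / 2 - δ) (((k + 1 : ℕ) : ℝ) / 2)
      have e3 : ((k + 1 : ℕ) : ℝ) / 2 - 1 / 2 = (k : ℝ) / 2 := by push_cast; ring
      have e4 : ((k + 1 : ℕ) : ℝ) / 2 + δ - 1 / 2 = (k : ℝ) / 2 + δ := by push_cast; ring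
      have e5 : ((k + 1 : ℕ) : ℝ) / 2 - δ - 1 / 2 = (k : ℝ) / 2 - δ := by push_cast; ring
      rw [e3, e4] at e1
      rw [e3, e5] at e2
      obtain ⟨b1, b2, b3, b4⟩ := hδ2
      rw [abs_le] at hδ1 ⊢
      obtain ⟨c1, c2⟩ := hδ1
      rw [pow_succ]
      constructor <;> nlinarith
  -- conclusion at a large odd `k`
  obtain ⟨j, hj⟩ := exists_nat_gt (16 * M)
  set k : ℕ := 2 * j + 1 with hk
  have hkodd : Odd k := ⟨j, rfl⟩
  have hkpos : (0 : ℝ) < (k : ℝ) / 2 := by positivity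
  have hsmall : φ ((k : ℝ) / 2) ≤ 1 / 8 := by
    refine (hfin _ hkpos).trans ?_
    rw [div_le_iff₀ hkpos]
    have : (k : ℝ) = 2 * j + 1 := by rw [hk]; push_cast; ring
    rw [this]
    nlinarith
  have hev := (hjump k (1 / 100) (by norm_num)).and (mass_near hkpos hφ0 (hφ _ hkpos) hd
        (show (0 : ℝ) < 1 / 100 by norm_num))
  have hseq : Tendsto (fun N : ℕ => 2 / ((N : ℝ))) atTop (𝓝[>] (0 : ℝ)) := by
    rw [tendsto_nhdsWithin_iff]
    refine ⟨tendsto_const_div_atTop_nhds_zero_nat 2, ?_⟩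
    filter_upwards [eventually_gt_atTop 0] with N hN
    have : (0 : ℝ) < N := by exact_mod_cast hN
    exact div_pos (by norm_num) this
  obtain ⟨N, ⟨hN1, hN2⟩, hN3⟩ := ((hseq.eventually hev).and (eventually_ge_atTop 1)).exists
  have hNpos : (0 : ℝ) < N := by exact_mod_cast hN3
  set δ : ℝ := 2 / (N : ℝ) with hδ
  have hδpos : 0 < δ := by positivity
  have hlow : δ / 4 ≤ (ν (Ioo 0 δ)).toReal := by
    refine le_trans (le_of_eq ?_) (h4 N hN3)
    rw [hδ]; field_simp; ring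
  obtain ⟨b1, b2, b3, b4⟩ := hN2
  rw [hkodd.neg_one_pow] at hN1
  have e2 := h1 ((k : ℝ) / 2 - δ) ((k : ℝ) / 2)
  have p1 := ENNReal.toReal_nonneg (a := ρ (Ioo ((k : ℝ) / 2 - δ - 1 / 2) ((k : ℝ) / 2 - 1 / 2)))
  have p2 := ENNReal.toReal_nonneg (a := ρ (Ioo ((k : ℝ) / 2) ((k : ℝ) / 2 + δ)))
  have hN1' := (abs_le.1 hN1).2
  nlinarith

end Pool.Agent.Q216.RH
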