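import Pool.Agent.Q216.RH.Analytic

set_option autoImplicit false

/-! The probabilistic part: the random series `∑ I n / (n + 1)` with independent `I n ∈ {0, 1}`,
`P (I n = 1) = 1 / (n + 1)`. -/

namespace Pool.Agent.Q216.RH

open MeasureTheory ProbabilityTheory Set Filter Topology
open scoped ENNReal

variable {Ω : Type*} [mΩ : MeasurableSpace Ω]

/-- The hypotheses on the indicators. -/
structure Model (P : Measure Ω) (I : ℕ → Ω → ℝ) : Prop where
  meas : ∀ n, Measurable (I n)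
  val : ∀ n ω, I n ω = 0 ∨ I n ω = 1
  prob : ∀ n, P {ω | I n ω = 1} = ENNReal.ofReal (1 / ((n : ℝ) + 1))
  indep : iIndepFun I P

/-- The sum over the indices in `J`. -/
noncomputable def W (I : ℕ → Ω → ℝ) (J : Set ℕ) (ω : Ω) : ℝ≥0∞ :=
  ∑' n, J.indicator (fun n => ENNReal.ofReal (I n ω / ((n : ℝ) + 1))) n

/-- The same as a real number. -/
noncomputable def V (I : ℕ → Ω → ℝ) (J : Set ℕ) (ω : Ω) : ℝ := (W I J ω).toReal

/-- The σ-algebra generated by the indicators with index in `J`. -/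
def sig (I : ℕ → Ω → ℝ) (J : Set ℕ) : MeasurableSpace Ω :=
  ⨆ n ∈ J, MeasurableSpace.comap (I n) inferInstance

theorem sig_le {P : Measure Ω} {I : ℕ → Ω → ℝ} (h : Model P I) (J : Set ℕ) : sig I J ≤ mΩ :=
  iSup₂_le fun n _ => (h.meas n).comap_le

theorem meas_sig (I : ℕ → Ω → ℝ) {J : Set ℕ} {n : ℕ} (hn : n ∈ J) : Measurable[sig I J] (I n) := by
  rw [measurable_iff_comap_le]
  exact le_iSup₂_of_le n hn le_rfl

theorem meas_W (I : ℕ → Ω → ℝ) (J : Set ℕ) : Measurable[sig I J] (W I J) := by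
  unfold W
  refine @Measurable.ennreal_tsum Ω (sig I J) ℕ _ _ fun n => ?_
  by_cases hn : n ∈ J
  · simp only [indicator_of_mem hn]
    have h1 : Measurable (fun x : ℝ => ENNReal.ofReal (x / ((n : ℝ) + 1))) := by fun_prop
    exact h1.comp (meas_sig I hn)
  · simp only [indicator_of_notMem hn]
    exact @measurable_const _ _ _ (sig I J) _

theorem meas_V (I : ℕ → Ω → ℝ) (J : Set ℕ) : Measurable[sig I J] (V I J) :=
  @Measurable.ennreal_toReal Ω (sig I J) _ (meas_W I J)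

theorem meas_W' {P : Measure Ω} {I : ℕ → Ω → ℝ} (h : Model P I) (J : Set ℕ) :
    Measurable (W I J) := (meas_W I J).mono (sig_le h J) le_rfl

theorem meas_V' {P : Measure Ω} {I : ℕ → Ω → ℝ} (h : Model P I) (J : Set ℕ) :
    Measurable (V I J) := (meas_V I J).mono (sig_le h J) le_rfl

theorem indep_sig {P : Measure Ω} {I : ℕ → Ω → ℝ} (h : Model P I) {J K : Set ℕ}
    (hJK : Disjoint J K) : Indep (sig I J) (sig I K) P :=
  indep_iSup_of_disjoint (fun i => (h.meas i).comap_le) h.indep.iIndep hJK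

theorem inter_sig {P : Measure Ω} {I : ℕ → Ω → ℝ} (h : Model P I) {J K : Set ℕ}
    (hJK : Disjoint J K) {A B : Set Ω} (hA : MeasurableSet[sig I J] A)
    (hB : MeasurableSet[sig I K] B) : P (A ∩ B) = P A * P B :=
  (Indep_iff _ _ _).1 (indep_sig h hJK) A B hA hB

theorem nonneg {P : Measure Ω} {I : ℕ → Ω → ℝ} (h : Model P I) (n : ℕ) (ω : Ω) : 0 ≤ I n ω := by
  rcases h.val n ω with h | h <;> rw [h] <;> norm_num

theorem mset {P : Measure Ω} {I : ℕ → Ω → ℝ} (h : Model P I) (n : ℕ) :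
    MeasurableSet {ω | I n ω = 1} := (h.meas n) (measurableSet_singleton 1)

theorem term {P : Measure Ω} {I : ℕ → Ω → ℝ} (h : Model P I) (n : ℕ) (ω : Ω) :
    ENNReal.ofReal (I n ω / ((n : ℝ) + 1)) =
      ({ω | I n ω = 1}).indicator (fun _ => ENNReal.ofReal (1 / ((n : ℝ) + 1))) ω := by
  rcases h.val n ω with h0 | h0
  · rw [indicator_of_notMem (by simp [h0]), h0]; simp
  · rw [indicator_of_mem (by simpa using h0), h0]

theorem lint_term {P : Measure Ω} {I : ℕ → Ω → ℝ} (h : Model P I) (n : ℕ) :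
    ∫⁻ ω, ENNReal.ofReal (I n ω / ((n : ℝ) + 1)) ∂P =
      ENNReal.ofReal (1 / ((n : ℝ) + 1) * (1 / ((n : ℝ) + 1))) := by
  simp_rw [term h n]
  rw [lintegral_indicator_const (mset h n), h.prob,
    ← ENNReal.ofReal_mul (by positivity)]

theorem lint_W {P : Measure Ω} {I : ℕ → Ω → ℝ} (h : Model P I) (J : Set ℕ) :
    ∫⁻ ω, W I J ω ∂P = ∑' n, J.indicator
      (fun n : ℕ => ENNReal.ofReal (1 / ((n : ℝ) + 1) * (1 / ((n : ℝ) + 1)))) n := by
  unfold W
  rw [lintegral_tsum]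
  · refine tsum_congr fun n => ?_
    by_cases hn : n ∈ J
    · simp only [indicator_of_mem hn]
      exact lint_term h n
    · simp [indicator_of_notMem hn]
  · intro n
    by_cases hn : n ∈ J
    · simp only [indicator_of_mem hn]
      exact ((h.meas n).div_const _).ennreal_ofReal.aemeasurable
    · simp only [indicator_of_notMem hn]
      exact aemeasurable_const

/-- Partial sums of the tail of `∑ 1 / (n + 1)²`. -/
theorem tail_le (N : ℕ) (hN : 1 ≤ N) : ∑' n, (Ici N).indicator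
      (fun n : ℕ => ENNReal.ofReal (1 / ((n : ℝ) + 1) * (1 / ((n : ℝ) + 1)))) n ≤
      ENNReal.ofReal (1 / (N : ℝ)) := by
  have hNpos : (0 : ℝ) < N := by exact_mod_cast hN
  rw [ENNReal.tsum_eq_iSup_nat]
  refine iSup_le fun n => ?_
  have h : ∀ n : ℕ, ∑ a ∈ Finset.range n, (Ici N).indicator
      (fun n : ℕ => ENNReal.ofReal (1 / ((n : ℝ) + 1) * (1 / ((n : ℝ) + 1)))) a ≤
      ENNReal.ofReal (1 / (N : ℝ) - 1 / ((max n N : ℕ) : ℝ)) := by
    intro n
    induction n with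
    | zero => simp
    | succ n ih =>
      rw [Finset.sum_range_succ]
      rcases lt_or_ge n N with h1 | h1
      · rw [indicator_of_notMem (by simpa using h1), add_zero]
        refine ih.trans (ENNReal.ofReal_le_ofReal ?_)
        rw [max_eq_right h1.le, max_eq_right (by omega : n + 1 ≤ N)]
      · rw [indicator_of_mem (by simpa using h1)]
        refine (add_le_add_left ih _).trans ?_
        rw [max_eq_left h1, max_eq_left (by omega : N ≤ n + 1)]
        have hn : (0 : ℝ) < n := lt_of_lt_of_le hNpos (by exact_mod_cast h1)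
        rw [← ENNReal.ofReal_add ?_ (by positivity)]
        · refine ENNReal.ofReal_le_ofReal ?_
          push_cast
          have : 1 / ((n : ℝ) + 1) * (1 / ((n : ℝ) + 1)) ≤ 1 / (n : ℝ) - 1 / ((n : ℝ) + 1) := by
            rw [div_mul_div_comm, div_sub_div _ _ hn.ne' (by positivity),
              div_le_div_iff₀ (by positivity) (by positivity)]
            nlinarith
          linarith
        · have : 1 / (n : ℝ) ≤ 1 / (N : ℝ) :=
            one_div_le_one_div_of_le hNpos (by exact_mod_cast h1)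
          linarith
  refine (h n).trans (ENNReal.ofReal_le_ofReal ?_)
  have : (0 : ℝ) ≤ 1 / ((max n N : ℕ) : ℝ) := by positivity
  linarith

theorem lint_W_ne_top {P : Measure Ω} {I : ℕ → Ω → ℝ} (h : Model P I) (J : Set ℕ) :
    ∫⁻ ω, W I J ω ∂P ≠ ⊤ := by
  rw [lint_W h]
  have h1 : ∑' n, J.indicator
      (fun n : ℕ => ENNReal.ofReal (1 / ((n : ℝ) + 1) * (1 / ((n : ℝ) + 1)))) n ≤
      1 + ∑' n, (Ici 1).indicator
      (fun n : ℕ => ENNReal.ofReal (1 / ((n : ℝ) + 1) * (1 / ((n : ℝ) + 1)))) n := by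
    rw [tsum_eq_zero_add' (f := fun n => J.indicator
      (fun n : ℕ => ENNReal.ofReal (1 / ((n : ℝ) + 1) * (1 / ((n : ℝ) + 1)))) n) ENNReal.summable]
    rw [tsum_eq_zero_add' (f := fun n => (Ici 1).indicator
      (fun n : ℕ => ENNReal.ofReal (1 / ((n : ℝ) + 1) * (1 / ((n : ℝ) + 1)))) n) ENNReal.summable]
    refine add_le_add ?_ ?_
    · by_cases h0 : 0 ∈ J
      · rw [indicator_of_mem h0]; simp
      · rw [indicator_of_notMem h0]; exact zero_le
    · refine le_add_left (ENNReal.tsum_le_tsum fun n => ?_)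
      rw [indicator_of_mem (s := Ici 1) (by simp)]
      by_cases h0 : n + 1 ∈ J
      · rw [indicator_of_mem h0]
      · rw [indicator_of_notMem h0]; exact zero_le
  refine ne_top_of_le_ne_top ?_ h1
  exact ENNReal.add_ne_top.2 ⟨ENNReal.one_ne_top,
    ne_top_of_le_ne_top ENNReal.ofReal_ne_top (tail_le 1 le_rfl)⟩

theorem W_lt_top {P : Measure Ω} {I : ℕ → Ω → ℝ} (h : Model P I) (J : Set ℕ) :
    ∀ᵐ ω ∂P, W I J ω < ⊤ := ae_lt_top (meas_W' h J) (lint_W_ne_top h J)

theorem W_split {P : Measure Ω} {I : ℕ → Ω → ℝ} (h : Model P I) {J : Set ℕ} {n : ℕ} (hn : n ∈ J)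
    (ω : Ω) : W I J ω = ENNReal.ofReal (I n ω / ((n : ℝ) + 1)) + W I (J \ {n}) ω := by
  classical
  unfold W
  rw [ENNReal.tsum_eq_add_tsum_ite (f := fun n => J.indicator
    (fun n => ENNReal.ofReal (I n ω / ((n : ℝ) + 1))) n) n]
  congr 1
  · rw [indicator_of_mem hn]
  · refine tsum_congr fun m => ?_
    by_cases hm : m = n
    · subst hm
      simp
    · rw [if_neg hm]
      by_cases hmJ : m ∈ J
      · rw [indicator_of_mem hmJ, indicator_of_mem (by exact ⟨hmJ, hm⟩)]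
      · rw [indicator_of_notMem hmJ, indicator_of_notMem (fun hh => hmJ hh.1)]

theorem V_split {P : Measure Ω} {I : ℕ → Ω → ℝ} (h : Model P I) {J : Set ℕ} {n : ℕ} (hn : n ∈ J) :
    ∀ᵐ ω ∂P, V I J ω = I n ω / ((n : ℝ) + 1) + V I (J \ {n}) ω := by
  filter_upwards [W_lt_top h (J \ {n})] with ω hω
  unfold V
  rw [W_split h hn, ENNReal.toReal_add ENNReal.ofReal_ne_top hω.ne,
    ENNReal.toReal_ofReal (div_nonneg (nonneg h n ω) (by positivity))]

theorem prob_zero {P : Measure Ω} [IsProbabilityMeasure P] {I : ℕ → Ω → ℝ} (h : Model P I)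
    (n : ℕ) : P {ω | I n ω = 0} = ENNReal.ofReal ((n : ℝ) / ((n : ℝ) + 1)) := by
  have h1 : {ω | I n ω = 0} = {ω | I n ω = 1}ᶜ := by
    ext ω
    rcases h.val n ω with h0 | h0 <;> simp [h0]
  rw [h1, prob_compl_eq_one_sub (mset h n), h.prob,
    ← ENNReal.ofReal_one, ← ENNReal.ofReal_sub _ (by positivity)]
  congr 1
  field_simp
  ring

/-- One indicator is removed: the part where it is `1`. -/
theorem part_one {P : Measure Ω} [IsProbabilityMeasure P] {I : ℕ → Ω → ℝ} (h : Model P I)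
    {J : Set ℕ} {n : ℕ} (hn : n ∈ J) {A : Set ℝ} (hA : MeasurableSet A) :
    P (V I J ⁻¹' A ∩ {ω | I n ω = 1}) =
      P (V I (J \ {n}) ⁻¹' ((fun x => 1 / ((n : ℝ) + 1) + x) ⁻¹' A)) *
        ENNReal.ofReal (1 / ((n : ℝ) + 1)) := by
  have h1 : (V I J ⁻¹' A ∩ {ω | I n ω = 1} : Set Ω) =ᵐ[P]
      (V I (J \ {n}) ⁻¹' ((fun x => 1 / ((n : ℝ) + 1) + x) ⁻¹' A) ∩ {ω | I n ω = 1} : Set Ω) := by
    filter_upwards [V_split h hn] with ω hω
    refine propext ⟨fun hh => ⟨?_, hh.2⟩, fun hh => ⟨?_, hh.2⟩⟩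
    · have h2 : I n ω = 1 := hh.2
      have h3 : V I J ω ∈ A := hh.1
      rw [hω, h2] at h3
      exact h3
    · have h2 : I n ω = 1 := hh.2
      have h3 : 1 / ((n : ℝ) + 1) + V I (J \ {n}) ω ∈ A := hh.1
      show V I J ω ∈ A
      rw [hω, h2]
      exact h3
  rw [measure_congr h1, ← h.prob n]
  refine inter_sig h (J := J \ {n}) (K := {n}) disjoint_sdiff_left ?_ ?_
  · exact meas_V I (J \ {n}) (hA.preimage (measurable_const_add _))
  · exact meas_sig I (mem_singleton n) (measurableSet_singleton (1 : ℝ))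

/-- One indicator is removed: the part where it is `0`. -/
theorem part_zero {P : Measure Ω} [IsProbabilityMeasure P] {I : ℕ → Ω → ℝ} (h : Model P I)
    {J : Set ℕ} {n : ℕ} (hn : n ∈ J) {A : Set ℝ} (hA : MeasurableSet A) :
    P (V I J ⁻¹' A ∩ {ω | I n ω = 0}) =
      P (V I (J \ {n}) ⁻¹' A) * ENNReal.ofReal ((n : ℝ) / ((n : ℝ) + 1)) := by
  have h1 : (V I J ⁻¹' A ∩ {ω | I n ω = 0} : Set Ω) =ᵐ[P]
      (V I (J \ {n}) ⁻¹' A ∩ {ω | I n ω = 0} : Set Ω) := by
    filter_upwards [V_split h hn] with ω hω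
    refine propext ⟨fun hh => ⟨?_, hh.2⟩, fun hh => ⟨?_, hh.2⟩⟩
    · have h2 : I n ω = 0 := hh.2
      have h3 : V I J ω ∈ A := hh.1
      rw [hω, h2, zero_div, zero_add] at h3
      exact h3
    · have h2 : I n ω = 0 := hh.2
      have h3 : V I (J \ {n}) ω ∈ A := hh.1
      show V I J ω ∈ A
      rw [hω, h2, zero_div, zero_add]
      exact h3
  rw [measure_congr h1, ← prob_zero h n]
  refine inter_sig h (J := J \ {n}) (K := {n}) disjoint_sdiff_left ?_ ?_
  · exact meas_V I (J \ {n}) hA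
  · exact meas_sig I (mem_singleton n) (measurableSet_singleton (0 : ℝ))

theorem part_add {P : Measure Ω} {I : ℕ → Ω → ℝ} (h : Model P I) (n : ℕ) {B : Set Ω}
    (hB : MeasurableSet B) : P B = P (B ∩ {ω | I n ω = 1}) + P (B ∩ {ω | I n ω = 0}) := by
  have hm : MeasurableSet {ω | I n ω = 1} := (h.meas n) (measurableSet_singleton 1)
  have h1 : B ∩ {ω | I n ω = 0} = B \ {ω | I n ω = 1} := by
    ext ω
    rcases h.val n ω with h0 | h0 <;> simp [h0]
  rw [h1, measure_inter_add_sdiff _ hm]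

/-- (F1) -/
theorem f1 {P : Measure Ω} [IsProbabilityMeasure P] {I : ℕ → Ω → ℝ} (h : Model P I) (a b : ℝ) :
    (P.map (V I (Ici 1)) (Ioo a b)).toReal =
      ((P.map (V I (Ici 1 \ {1})) (Ioo a b)).toReal +
        (P.map (V I (Ici 1 \ {1})) (Ioo (a - 1 / 2) (b - 1 / 2))).toReal) / 2 := by
  rw [Measure.map_apply (meas_V' h _) measurableSet_Ioo,
    Measure.map_apply (meas_V' h _) measurableSet_Ioo,
    Measure.map_apply (meas_V' h _) measurableSet_Ioo]
  have hn : (1 : ℕ) ∈ Ici 1 := mem_Ici.2 le_rfl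
  rw [part_add h 1 ((meas_V' h _) measurableSet_Ioo), part_one h hn measurableSet_Ioo,
    part_zero h hn measurableSet_Ioo]
  have h1 : (fun x : ℝ => 1 / (((1 : ℕ) : ℝ) + 1) + x) ⁻¹' Ioo a b =
      Ioo (a - 1 / 2) (b - 1 / 2) := by
    ext x
    simp only [mem_preimage, mem_Ioo, Nat.cast_one]
    constructor <;> rintro ⟨h1, h2⟩ <;> constructor <;> linarith
  rw [h1, ENNReal.toReal_add (by finiteness) (by finiteness), ENNReal.toReal_mul,
    ENNReal.toReal_mul, ENNReal.toReal_ofReal (by positivity), ENNReal.toReal_ofReal (by positivity)]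
  push_cast
  ring

/-- (F2) -/
theorem f2 {P : Measure Ω} [IsProbabilityMeasure P] {I : ℕ → Ω → ℝ} (h : Model P I) (N : ℕ)
    (hN : 1 ≤ N) (h0 : P (V I (Ici 1) ⁻¹' {0}) = 0) :
    1 / (2 * (N : ℝ)) ≤ (P.map (V I (Ici 1)) (Ioo 0 (2 / (N : ℝ)))).toReal := by
  have hNpos : (0 : ℝ) < N := by exact_mod_cast hN
  -- no indicator before `N`
  have hno : ∀ M : ℕ, 1 ≤ M → P (⋂ n ∈ Finset.Ico 1 M, {ω | I n ω = 0}) =
      ENNReal.ofReal (1 / (M : ℝ)) := by
    intro M hM
    have h1 : P (⋂ n ∈ Finset.Ico 1 M, {ω | I n ω = 0}) =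
        ∏ n ∈ Finset.Ico 1 M, P {ω | I n ω = 0} :=
      h.indep.meas_biInter fun n _ => ⟨{0}, measurableSet_singleton 0, rfl⟩
    rw [h1]
    simp_rw [prob_zero h]
    rw [← ENNReal.ofReal_prod_of_nonneg (fun n _ => by positivity)]
    congr 1
    induction M, hM using Nat.le_induction with
    | base => simp
    | succ M hM ih =>
      have hM' : (0 : ℝ) < M := by exact_mod_cast hM
      rw [Finset.prod_Ico_succ_top hM, ih]
      · push_cast
        field_simp
      · exact h.indep.meas_biInter fun n _ => ⟨{0}, measurableSet_singleton 0, rfl⟩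
  -- the tail
  have htail : 1 / 2 ≤ P {ω | W I (Ici N) ω < ENNReal.ofReal (2 / (N : ℝ))} := by
    have h1 : P {ω | ENNReal.ofReal (2 / (N : ℝ)) ≤ W I (Ici N) ω} ≤ 1 / 2 := by
      refine (meas_ge_le_lintegral_div (meas_W' h _).aemeasurable ?_ ENNReal.ofReal_ne_top).trans ?_
      · exact (ENNReal.ofReal_pos.2 (by positivity)).ne'
      · rw [lint_W h]
        refine (ENNReal.div_le_div_right (tail_le N hN) _).trans ?_
        rw [← ENNReal.ofReal_div_of_pos (by positivity)]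
        have : 1 / (N : ℝ) / (2 / (N : ℝ)) = 1 / 2 := by field_simp
        rw [this, ENNReal.ofReal_div_of_pos (by norm_num)]
        simp
    have h2 : {ω | W I (Ici N) ω < ENNReal.ofReal (2 / (N : ℝ))} =
        {ω | ENNReal.ofReal (2 / (N : ℝ)) ≤ W I (Ici N) ω}ᶜ := by
      ext ω; simp
    rw [h2, prob_compl_eq_one_sub (measurableSet_le measurable_const (meas_W' h _))]
    have h3 : (1 : ℝ≥0∞) - 1 / 2 = 1 / 2 := by
      rw [one_div]; exact ENNReal.one_sub_inv_two
    calc (1 : ℝ≥0∞) / 2 = 1 - 1 / 2 := h3.symm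
      _ ≤ _ := tsub_le_tsub_left h1 1
  -- independence
  have hind : P ((⋂ n ∈ Finset.Ico 1 N, {ω | I n ω = 0}) ∩
      {ω | W I (Ici N) ω < ENNReal.ofReal (2 / (N : ℝ))}) =
      P (⋂ n ∈ Finset.Ico 1 N, {ω | I n ω = 0}) *
        P {ω | W I (Ici N) ω < ENNReal.ofReal (2 / (N : ℝ))} := by
    refine inter_sig h (J := Iio N) (K := Ici N) ?_ ?_ ?_
    · rw [Set.disjoint_left]
      intro x hx hx'
      exact absurd (mem_Iio.1 hx) (not_lt.2 (mem_Ici.1 hx'))
    · refine @Finset.measurableSet_biInter Ω ℕ (sig I (Iio N)) _ _ fun n hn => ?_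
      refine meas_sig I ?_ (measurableSet_singleton (0 : ℝ))
      exact (Finset.mem_Ico.1 hn).2
    · exact meas_W I (Ici N) measurableSet_Iio
  -- the inclusion
  have hincl : ((⋂ n ∈ Finset.Ico 1 N, {ω | I n ω = 0}) ∩
      {ω | W I (Ici N) ω < ENNReal.ofReal (2 / (N : ℝ))}) ⊆
      V I (Ici 1) ⁻¹' (Ioo 0 (2 / (N : ℝ))) ∪ V I (Ici 1) ⁻¹' {0} := by
    rintro ω ⟨h1, h2⟩
    have h3 : W I (Ici 1) ω = W I (Ici N) ω := by
      unfold W
      refine tsum_congr fun n => ?_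
      rcases lt_or_ge n N with hlt | hge
      · rw [indicator_of_notMem (s := Ici N) (by simpa using hlt)]
        rcases Nat.eq_zero_or_pos n with h0 | h0
        · rw [indicator_of_notMem (by simp [h0])]
        · rw [indicator_of_mem (mem_Ici.2 h0)]
          have : ω ∈ {ω | I n ω = 0} := by
            have := mem_iInter₂.1 h1 n (Finset.mem_Ico.2 ⟨h0, hlt⟩)
            exact this
          have h5 : I n ω = 0 := this
          rw [h5]; simp
      · rw [indicator_of_mem (s := Ici N) (by simpa using hge),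
          indicator_of_mem (s := Ici 1) (by simpa using hN.trans hge)]
    have h4 : V I (Ici 1) ω < 2 / (N : ℝ) := by
      unfold V
      rw [h3]
      have h5 : W I (Ici N) ω < ENNReal.ofReal (2 / (N : ℝ)) := h2
      exact (ENNReal.lt_ofReal_iff_toReal_lt (ne_top_of_lt h5)).1 h5
    rcases (ENNReal.toReal_nonneg (a := W I (Ici 1) ω)).eq_or_lt with h6 | h6
    · right
      exact h6.symm
    · left
      exact ⟨h6, h4⟩
  have hfinal : ENNReal.ofReal (1 / (2 * (N : ℝ))) ≤ P.map (V I (Ici 1)) (Ioo 0 (2 / (N : ℝ))) := by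
    rw [Measure.map_apply (meas_V' h _) measurableSet_Ioo]
    calc ENNReal.ofReal (1 / (2 * (N : ℝ))) = ENNReal.ofReal (1 / (N : ℝ)) * (1 / 2) := by
          have : 1 / (2 * (N : ℝ)) = (1 / (N : ℝ)) / 2 := by field_simp
          rw [this, ENNReal.ofReal_div_of_pos (by norm_num)]
          simp [div_eq_mul_inv]
      _ ≤ P (⋂ n ∈ Finset.Ico 1 N, {ω | I n ω = 0}) *
          P {ω | W I (Ici N) ω < ENNReal.ofReal (2 / (N : ℝ))} := by
          rw [hno N hN]
          gcongr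
      _ = _ := hind.symm
      _ ≤ _ := measure_mono hincl
      _ ≤ _ := measure_union_le _ _
      _ = _ := by rw [h0, add_zero]
  exact (ENNReal.ofReal_le_iff_le_toReal (measure_ne_top _ _)).1 hfinal

/-- (F3) -/
theorem f3 {P : Measure Ω} [IsProbabilityMeasure P] {I : ℕ → Ω → ℝ} (h : Model P I) (a b : ℝ)
    (ha : 0 < a) : ENNReal.ofReal a * P.map (V I (Ici 1)) (Ioo a b) ≤
      ∑' n : ℕ, ENNReal.ofReal (1 / (((n : ℝ) + 1) * (n + 2))) *
        P.map (V I (Ici 1)) (Ioo (a - 1 / ((n : ℝ) + 2)) (b - 1 / ((n : ℝ) + 2))) := by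
  have hmB : MeasurableSet (V I (Ici 1) ⁻¹' (Ioo a b)) := (meas_V' h _) measurableSet_Ioo
  rw [Measure.map_apply (meas_V' h _) measurableSet_Ioo]
  have h1 : ENNReal.ofReal a * P (V I (Ici 1) ⁻¹' (Ioo a b)) ≤
      ∫⁻ ω in V I (Ici 1) ⁻¹' (Ioo a b), W I (Ici 1) ω ∂P := by
    rw [← setLIntegral_const]
    refine setLIntegral_mono (meas_W' h _) fun ω hω => ?_
    have h2 : a < V I (Ici 1) ω := hω.1
    exact (ENNReal.ofReal_le_ofReal h2.le).trans ENNReal.ofReal_toReal_le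
  refine h1.trans ?_
  have h2 : ∫⁻ ω in V I (Ici 1) ⁻¹' (Ioo a b), W I (Ici 1) ω ∂P =
      ∑' n, (Ici 1).indicator (fun n : ℕ => ENNReal.ofReal (1 / ((n : ℝ) + 1)) *
        P (V I (Ici 1) ⁻¹' (Ioo a b) ∩ {ω | I n ω = 1})) n := by
    unfold W
    rw [lintegral_tsum]
    · refine tsum_congr fun n => ?_
      by_cases hn : n ∈ Ici 1
      · simp only [indicator_of_mem hn]
        simp_rw [term h n]
        rw [lintegral_indicator_const (mset h n),
          Measure.restrict_apply (mset h n), inter_comm]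
      · simp [indicator_of_notMem hn]
    · intro n
      by_cases hn : n ∈ Ici 1
      · simp only [indicator_of_mem hn]
        exact ((h.meas n).div_const _).ennreal_ofReal.aemeasurable
      · simp only [indicator_of_notMem hn]
        exact aemeasurable_const
  rw [h2, tsum_eq_zero_add' ENNReal.summable, indicator_of_notMem (by simp), zero_add]
  refine ENNReal.tsum_le_tsum fun n => ?_
  have hn : n + 1 ∈ Ici 1 := by simp
  rw [indicator_of_mem hn, part_one h hn measurableSet_Ioo,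
    Measure.map_apply (meas_V' h _) measurableSet_Ioo]
  have h3 : (fun x : ℝ => 1 / (((n + 1 : ℕ) : ℝ) + 1) + x) ⁻¹' Ioo a b =
      Ioo (a - 1 / ((n : ℝ) + 2)) (b - 1 / ((n : ℝ) + 2)) := by
    have h4 : ((n + 1 : ℕ) : ℝ) + 1 = (n : ℝ) + 2 := by push_cast; ring
    ext x
    rw [h4]
    simp only [mem_preimage, mem_Ioo]
    constructor <;> rintro ⟨h1, h2⟩ <;> constructor <;> linarith
  rw [h3]
  set B : Set ℝ := Ioo (a - 1 / ((n : ℝ) + 2)) (b - 1 / ((n : ℝ) + 2)) with hB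
  have h5 : P (V I (Ici 1 \ {n + 1}) ⁻¹' B) * ENNReal.ofReal (((n + 1 : ℕ) : ℝ) / (((n + 1 : ℕ) : ℝ) + 1)) ≤
      P (V I (Ici 1) ⁻¹' B) := by
    rw [← part_zero h hn measurableSet_Ioo]
    exact measure_mono inter_subset_left
  have h6 : ENNReal.ofReal (1 / (((n + 1 : ℕ) : ℝ) + 1)) =
      ENNReal.ofReal (((n + 1 : ℕ) : ℝ) / (((n + 1 : ℕ) : ℝ) + 1)) *
        ENNReal.ofReal (1 / ((n : ℝ) + 1)) := by
    rw [← ENNReal.ofReal_mul (by positivity)]
    congr 1
    push_cast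
    field_simp
  calc ENNReal.ofReal (1 / (((n + 1 : ℕ) : ℝ) + 1)) *
        (P (V I (Ici 1 \ {n + 1}) ⁻¹' B) * ENNReal.ofReal (1 / (((n + 1 : ℕ) : ℝ) + 1)))
      = ENNReal.ofReal (1 / (((n + 1 : ℕ) : ℝ) + 1)) *
        (P (V I (Ici 1 \ {n + 1}) ⁻¹' B) *
          ENNReal.ofReal (((n + 1 : ℕ) : ℝ) / (((n + 1 : ℕ) : ℝ) + 1)) *
          ENNReal.ofReal (1 / ((n : ℝ) + 1))) := by
        conv_lhs => rw [h6]
        rw [h6]; ring
    _ ≤ ENNReal.ofReal (1 / (((n + 1 : ℕ) : ℝ) + 1)) *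
        (P (V I (Ici 1) ⁻¹' B) * ENNReal.ofReal (1 / ((n : ℝ) + 1))) := by gcongr
    _ = ENNReal.ofReal (1 / (((n : ℝ) + 1) * (n + 2))) * P (V I (Ici 1) ⁻¹' B) := by
        rw [mul_comm (P _), ← mul_assoc, ← ENNReal.ofReal_mul (by positivity)]
        congr 2
        push_cast
        field_simp
        ring

end Pool.Agent.Q216.RH
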